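import Pool.Agent.LRG.StmtsB2

set_option autoImplicit false

namespace Pool.Agent.LRG.H16

open Pool.Agent.LRG

/-- **Row ABM**. -/
theorem abm : AbmStmt := by
  intro hDEP p _ n D X M hX hlt P T w hw e hdet
  have hex := hDEP ℤ ((D + 1) ^ (n + 1)) T.card
    (fun a j => ∏ i, w (T.equivFin.symm j).1 i ^ (e a i : ℕ)) (by
      intro J
      set Δ : ℤ := (Matrix.of fun a b =>
        (fun (a : Fin ((D + 1) ^ (n + 1))) (j : Fin T.card) => ∏ i, w (T.equivFin.symm j).1 i ^ (e a i : ℕ)) a
          (J b)).det with hΔ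
      have h1 : (p : ℤ_[p]) ^ M ∣ (Δ : ℤ_[p]) := by
        have h2 := hdet (fun b => (T.equivFin.symm (J b)).1) (fun b => (T.equivFin.symm (J b)).2)
        have h3 : (Δ : ℤ_[p]) = (Matrix.of fun a b =>
            ((∏ i, w (T.equivFin.symm (J b)).1 i ^ (e a i : ℕ) : ℤ) : ℤ_[p])).det := by
          have h4 := (Int.castRingHom ℤ_[p]).map_det (Matrix.of fun a b =>
            (fun (a : Fin ((D + 1) ^ (n + 1))) (j : Fin T.card) => ∏ i, w (T.equivFin.symm j).1 i ^ (e a i : ℕ)) a
              (J b))
          exact h4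
        rw [h3]
        exact h2
      have h5 : ((p : ℤ) ^ M) ∣ Δ := (PadicInt.pow_p_dvd_int_iff M Δ).mp h1
      have h6 : |Δ| ≤ ((D + 1) ^ (n + 1)).factorial * (X : ℤ) ^ ((n + 1) * D * (D + 1) ^ (n + 1)) := by
        have h7 := Matrix.det_le (abv := (AbsoluteValue.abs : AbsoluteValue ℤ ℤ))
          (A := Matrix.of fun a b =>
            (fun (a : Fin ((D + 1) ^ (n + 1))) (j : Fin T.card) => ∏ i, w (T.equivFin.symm j).1 i ^ (e a i : ℕ)) a
              (J b)) (x := (X : ℤ) ^ ((n + 1) * D)) (by
            intro a b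
            show |∏ i, w (T.equivFin.symm (J b)).1 i ^ (e a i : ℕ)| ≤ _
            rw [Finset.abs_prod]
            calc ∏ i, |w (T.equivFin.symm (J b)).1 i ^ (e a i : ℕ)|
                ≤ ∏ i : Fin (n + 1), (X : ℤ) ^ D := by
                  refine Finset.prod_le_prod (fun i _ => abs_nonneg _) (fun i _ => ?_)
                  rw [abs_pow]
                  calc |w (T.equivFin.symm (J b)).1 i| ^ (e a i : ℕ)
                      ≤ (X : ℤ) ^ (e a i : ℕ) :=
                        pow_le_pow_left₀ (abs_nonneg _)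
                          (hw _ (T.equivFin.symm (J b)).2 i) _
                    _ ≤ (X : ℤ) ^ D :=
                        pow_le_pow_right₀ (by exact_mod_cast hX) (Nat.lt_succ_iff.mp (e a i).2)
              _ = (X : ℤ) ^ ((n + 1) * D) := by
                  rw [Finset.prod_const, Finset.card_univ, Fintype.card_fin, ← pow_mul,
                    mul_comm])
        rw [Fintype.card_fin, nsmul_eq_mul, ← pow_mul] at h7
        exact h7
      have h8 : |Δ| < (p : ℤ) ^ M := lt_of_le_of_lt h6 (by exact_mod_cast hlt)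
      exact Int.eq_zero_of_abs_lt_dvd h5 h8)
  obtain ⟨α, hα, hsum⟩ := hex
  refine ⟨fun f => α (e.symm f), ?_, ?_⟩
  · intro h0
    apply hα
    funext a
    have := congrFun h0 (e a)
    simpa using this
  · intro x hx
    have h9 := hsum (T.equivFin ⟨x, hx⟩)
    simp only [Equiv.symm_apply_apply] at h9
    unfold gv
    rw [← Equiv.sum_comp e]
    simp only [Equiv.symm_apply_apply]
    exact h9

end Pool.Agent.LRG.H16
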