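import Pool.Agent.LRG.StmtsC

set_option autoImplicit false

open Polynomial

namespace Pool.Agent.LRG.H16

open Pool.Agent.LRG

theorem lagP_map {n : ℕ} {S T : Type} [CommRing S] [CommRing T] (f : S →+* T) (x : Fin n → S)
    (j : Fin n) : (lagP x j).map f = lagP (fun j => f (x j)) j := by
  unfold lagP
  rw [Polynomial.map_prod]
  refine Finset.prod_congr rfl (fun j' _ => ?_)
  rw [Polynomial.map_sub, map_X, map_C]

theorem lagD_map {n : ℕ} {S T : Type} [CommRing S] [CommRing T] (f : S →+* T) (x : Fin n → S)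
    (j : Fin n) : f (lagD x j) = lagD (fun j => f (x j)) j := by
  unfold lagD
  rw [map_prod]
  refine Finset.prod_congr rfl (fun j' _ => ?_)
  rw [map_sub]

theorem lagE_map {n : ℕ} {S T : Type} [CommRing S] [CommRing T] (f : S →+* T) (x : Fin n → S)
    (j : Fin n) : f (lagE x j) = lagE (fun j => f (x j)) j := by
  unfold lagE
  rw [map_prod]
  exact Finset.prod_congr rfl (fun j' _ => lagD_map f x j')

theorem cc_map {n r : ℕ} {S T : Type} [CommRing S] [CommRing T] (f : S →+* T)
    (y : Ix n r → S) (x : Fin r → Fin n → S) (i i' : Fin r) (j j' : Fin n) :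
    f (cc y x i i' j j') = cc (fun s => f (y s)) (fun i j => f (x i j)) i i' j j' := by
  unfold cc
  rw [map_mul, map_mul, lagE_map, lagE_map, map_sum]
  congr 2
  refine Finset.sum_congr rfl (fun a _ => ?_)
  rw [map_sum]
  refine Finset.sum_congr rfl (fun b _ => ?_)
  rw [map_mul, map_mul, ← coeff_map, ← coeff_map, lagP_map, lagP_map]

/-- the matrix of `TopId` -/
noncomputable def topM {n r q : ℕ} {S : Type} [CommRing S] (y : Ix n r → S)
    (x : Fin r → Fin n → S) (N : Fin r × Fin n → Fin q → ℤ) (Z : Fin q → ℤ) :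
    Matrix (Fin r) (Fin r) S :=
  Matrix.of fun i i' : Fin r => ∑ j : Fin n, ∑ j' : Fin n,
    cc y x i i' j j' * ((∑ l, N (i, j) l * Z l : ℤ) : S) *
      ((∑ l, N (i', j') l * Z l : ℤ) : S)

theorem topM_map {n r q : ℕ} {S T : Type} [CommRing S] [CommRing T] (f : S →+* T)
    (y : Ix n r → S) (x : Fin r → Fin n → S) (N : Fin r × Fin n → Fin q → ℤ) (Z : Fin q → ℤ) :
    f (topM y x N Z).det
      = (topM (fun s => f (y s)) (fun i j => f (x i j)) N Z).det := by
  rw [RingHom.map_det]
  congr 1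
  ext i i'
  show f (∑ j : Fin n, ∑ j' : Fin n,
    cc y x i i' j j' * ((∑ l, N (i, j) l * Z l : ℤ) : S) *
      ((∑ l, N (i', j') l * Z l : ℤ) : S)) = ∑ j : Fin n, ∑ j' : Fin n,
    cc (fun s => f (y s)) (fun i j => f (x i j)) i i' j j' *
      ((∑ l, N (i, j) l * Z l : ℤ) : T) * ((∑ l, N (i', j') l * Z l : ℤ) : T)
  rw [map_sum]
  refine Finset.sum_congr rfl (fun j _ => ?_)
  rw [map_sum]
  refine Finset.sum_congr rfl (fun j' _ => ?_)
  rw [map_mul, map_mul, cc_map, map_intCast, map_intCast]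

/-- **Row TPM**. -/
theorem tpm : CX.TpmStmt := by
  intro Ω E _ _ n r q R y x N h g Z
  have h1 : R.subtype (topM y x N Z).det = 0 := by
    rw [topM_map]
    exact h Z
  have h2 : (topM y x N Z).det = 0 := by
    have h3 : Function.Injective (R.subtype) := Subtype.val_injective
    exact h3 (by rw [h1, map_zero])
  have h4 := topM_map g y x N Z
  rw [h2, map_zero] at h4
  exact h4.symm

end Pool.Agent.LRG.H16
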